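import Mathlib
import Pool.Graph.R_pool_sql_team_seeded_ab47071d.TH741.FU.Dense
import Pool.Graph.R_pool_sql_team_seeded_ab47071d.TH741.FU.Orbits

/-!
Measures on the circle which are invariant under the multiplications by the elements of a set `S`
of natural numbers: transfer of a gap from the atomless measures to all measures, uniform
minorants.  The case `S = {p, q}` is in the imported files; the proofs are adapted from there.
-/

set_option autoImplicit false

open MeasureTheory Filter Topology Set ProbabilityTheory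
open scoped ENNReal

namespace Pool.Agent.H632.FU

open Pool.Agent.TH741.FU (T A isOpen_A norm_le_half integrable_norm norm_smul_eq mean_le
  mass_smul_ge atom_le preimage_ae pres_cond cond_real_le infconv atoms countable_atoms atoms_smul
  atoms_torsion pres_of_tendsto pres_sub pres_volume vol_singleton conv_pres conv_atomless
  tendsto_conv vol_A_pos A_nonempty le_of_open convPM)

/-- the probability measures on the circle invariant under `x ↦ s x`, `s ∈ S` -/
def Inv (S : Set ℕ) (μ : Measure T) : Prop :=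
  IsProbabilityMeasure μ ∧ ∀ s ∈ S, MeasurePreserving (fun x : T => s • x) μ μ

/-- the points of order at most `Q` -/
def Sm (Q : ℕ) : Set T := {x | ∃ m : ℕ, 1 ≤ m ∧ m ≤ Q ∧ m • x = 0}

lemma Sm_finite (Q : ℕ) : (Sm Q).Finite := by
  have h : Sm Q ⊆ ⋃ m ∈ Finset.Icc 1 Q, {x : T | m • x = 0} := by
    rintro x ⟨m, h1, h2, h3⟩
    simp only [mem_iUnion]
    exact ⟨m, Finset.mem_Icc.2 ⟨h1, h2⟩, h3⟩
  refine Set.Finite.subset ?_ h
  refine Set.Finite.biUnion (Finset.finite_toSet _) fun m hm => ?_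
  exact AddCircle.finite_torsion (p := (1 : ℝ)) (Finset.mem_Icc.1 hm).1

lemma Sm_meas (Q : ℕ) : MeasurableSet (Sm Q) := (Sm_finite Q).measurableSet

lemma Sm_smul (Q n : ℕ) : ∀ x ∈ Sm Q, n • x ∈ Sm Q := by
  rintro x ⟨m, h1, h2, h3⟩
  refine ⟨m, h1, h2, ?_⟩
  rw [← mul_nsmul', mul_comm, mul_nsmul', h3, nsmul_zero]

lemma Sm_mono {Q Q' : ℕ} (h : Q ≤ Q') : Sm Q ⊆ Sm Q' := by
  rintro x ⟨m, h1, h2, h3⟩
  exact ⟨m, h1, h2.trans h, h3⟩

/-- conditioning an invariant measure off a forward invariant set -/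
lemma Inv.cond {S : Set ℕ} {μ : Measure T} (h : Inv S μ) {E : Set T} (hE : MeasurableSet E)
    (hEs : ∀ n : ℕ, ∀ x ∈ E, n • x ∈ E) (h0 : μ Eᶜ ≠ 0) : Inv S (μ[|Eᶜ]) := by
  have := h.1
  exact ⟨cond_isProbabilityMeasure h0, fun s hs => pres_cond (h.2 s hs) hE (hEs s)⟩

lemma Inv.map {S : Set ℕ} {μ : Measure T} (h : Inv S μ) (N : ℕ) :
    Inv S (μ.map fun x : T => N • x) := by
  have := h.1
  have hmN : Measurable fun x : T => N • x := (continuous_const_smul N).measurable
  exact ⟨Measure.isProbabilityMeasure_map hmN.aemeasurable,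
    fun s hs => Pool.Agent.H847R3.XpXq.map_inv (h.2 s hs)⟩

lemma real_pos_ne {μ : Measure T} [IsFiniteMeasure μ] {E : Set T} {x y : ℝ} (h : y < x * μ.real E)
    (hy : 0 ≤ y) (hx : 0 ≤ x) : 0 < μ.real E ∧ μ E ≠ 0 := by
  have hpos : 0 < μ.real E := by
    by_contra hneg
    have h0 : μ.real E = 0 := le_antisymm (not_lt.1 hneg) measureReal_nonneg
    rw [h0, mul_zero] at h
    exact absurd h (not_lt.2 hy)
  refine ⟨hpos, fun h0 => ?_⟩
  rw [measureReal_def, h0] at hpos
  simp at hpos

/-- **Transfer.** A lower bound for the mass of the far set, for the atomless invariant measures,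
gives one for all invariant measures. -/
theorem transfer {S : Set ℕ} {p : ℕ} (hp : 2 ≤ p) (hpS : p ∈ S) {c : ℝ} (hc : 0 < c)
    (h : ∀ μ : Measure T, Inv S μ → (∀ x, μ {x} = 0) → c ≤ μ.real (A p)) :
    ∃ c' : ℝ, 0 < c' ∧ ∀ μ : Measure T, Inv S μ → c' * μ.real {0}ᶜ ≤ μ.real (A p) := by
  by_contra hcon
  push Not at hcon
  have hp0 : (0 : ℝ) < p := by exact_mod_cast (by omega : 0 < p)
  set a : ℕ → ℝ := fun j => c / (8 * p) * (1 / 2) ^ j with ha
  have ha0 : ∀ j, 0 < a j := fun j => by positivity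
  have hasum : HasSum a (c / (4 * p)) := by
    have h1 := hasSum_geometric_two.mul_left (c / (8 * p))
    have e : c / (8 * p) * 2 = c / (4 * p) := by field_simp; norm_num
    rw [e] at h1
    exact h1
  have h1 : ∀ j, ∃ μ : Measure T, Inv S μ ∧ μ {0} = 0 ∧ μ.real (A p) ≤ a j := by
    intro j
    obtain ⟨μ, hμ, hlt⟩ := hcon (a j) (ha0 j)
    have := hμ.1
    obtain ⟨hpos, h0⟩ := real_pos_ne hlt measureReal_nonneg (ha0 j).le
    refine ⟨μ[|{0}ᶜ], hμ.cond (measurableSet_singleton 0) (by rintro n x rfl; simp) h0, ?_, ?_⟩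
    · rw [cond_apply (measurableSet_singleton (0 : T)).compl]
      simp
    · refine (cond_real_le (measurableSet_singleton 0)).trans ?_
      rw [div_le_iff₀ hpos]
      exact hlt.le
  choose μ hμ hμ0 hμA using h1
  have : ∀ j, IsProbabilityMeasure (μ j) := fun j => (hμ j).1
  have h2 : ∀ j x, μ j {x} ≤ ENNReal.ofReal (a j) := by
    intro j x
    by_cases hx : x = 0
    · rw [hx, hμ0 j]; exact bot_le
    · refine (atom_le hp ((hμ j).2 p hpS) hx).trans ?_
      rw [← ENNReal.ofReal_toReal (measure_ne_top (μ j) (A p))]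
      exact ENNReal.ofReal_le_ofReal (hμA j)
  obtain ⟨ν, hν, hνa, hνi, hνn⟩ := infconv (μ := μ) (fun j => (ha0 j).le) hasum.summable
    (fun j => (mean_le hp ((hμ j).2 p hpS)).trans (hμA j)) h2
  have h3 := h ν ⟨hν, fun s hs => hνi s fun j => (hμ j).2 s hs⟩ hνa
  rw [hasum.tsum_eq] at hνn
  have h4 : ENNReal.ofReal (1 / (2 * (p : ℝ))) * ν (A p) ≤ ∫⁻ x, ‖x‖ₑ ∂ν := by
    refine le_trans ?_ (mul_meas_ge_le_lintegral measurable_enorm (ENNReal.ofReal (1 / (2 * (p : ℝ)))))
    gcongr
    intro x hx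
    have hx' : 1 / (2 * (p : ℝ)) < ‖x‖ := hx
    show ENNReal.ofReal (1 / (2 * (p : ℝ))) ≤ ‖x‖ₑ
    rw [← ofReal_norm]
    exact ENNReal.ofReal_le_ofReal hx'.le
  have h5 := h4.trans hνn
  rw [← ENNReal.ofReal_toReal (measure_ne_top ν (A p)), ← ENNReal.ofReal_mul (by positivity),
    ENNReal.ofReal_le_ofReal_iff (by positivity)] at h5
  change 1 / (2 * (p : ℝ)) * ν.real (A p) ≤ _ at h5
  have h6 : 1 / (2 * (p : ℝ)) * c ≤ c / (4 * p) := le_trans (by gcongr) h5
  have e1 : 1 / (2 * (p : ℝ)) * c = 2 * (c / (4 * p)) := by field_simp; norm_num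
  have e2 : 0 < c / (4 * (p : ℝ)) := by positivity
  linarith

/-- from any closed far set to the standard one -/
lemma far_of_far {S : Set ℕ} {p : ℕ} (hp : 2 ≤ p) (hpS : p ∈ S) {r c : ℝ} (hr : 0 < r)
    (h : ∀ μ : Measure T, Inv S μ → (∀ x, μ {x} = 0) → c ≤ μ.real {x | r ≤ ‖x‖}) :
    ∀ μ : Measure T, Inv S μ → (∀ x, μ {x} = 0) → r * c ≤ μ.real (A p) := by
  intro μ hμ h0
  have := hμ.1
  have h1 := h μ hμ h0
  have h2 := mul_meas_ge_le_integral_of_nonneg (μ := μ) (f := fun x : T => ‖x‖)
    (Eventually.of_forall fun x => norm_nonneg x) (integrable_norm μ) r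
  have h3 := mean_le hp (hμ.2 p hpS)
  have h4 : r * c ≤ r * μ.real {x : T | r ≤ ‖x‖} := by gcongr
  exact (h4.trans h2).trans h3

/-- Lebesgue measure is the only atomless `S`-invariant probability measure -/
def Rigid (S : Set ℕ) : Prop := ∀ μ : Measure T, Inv S μ → (∀ x, μ {x} = 0) → μ = volume

/-- the continuous part of an invariant measure is a multiple of Lebesgue measure -/
lemma cont_part {S : Set ℕ} (hF : Rigid S) {ν : Measure T} (hν : Inv S ν) :
    ν.restrict (atoms ν)ᶜ = ν (atoms ν)ᶜ • (volume : Measure T) := by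
  have := hν.1
  have hm : MeasurableSet (atoms ν) := (countable_atoms ν).measurableSet
  by_cases h0 : ν (atoms ν)ᶜ = 0
  · rw [h0, zero_smul, Measure.restrict_eq_zero]
    exact h0
  · have h1 : Inv S (ν[|(atoms ν)ᶜ]) :=
      ⟨cond_isProbabilityMeasure h0, fun s hs => pres_cond (hν.2 s hs) hm (atoms_smul (hν.2 s hs))⟩
    have h2 := hF _ h1 fun x => by
      rw [cond_apply hm.compl]
      by_cases hx : x ∈ atoms ν
      · have : (atoms ν)ᶜ ∩ {x} = ∅ := by
          ext y
          simp only [mem_inter_iff, mem_compl_iff, mem_singleton_iff, mem_empty_iff_false,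
            iff_false, not_and]
          rintro h rfl
          exact h hx
        rw [this]; simp
      · have h3 : ν {x} = 0 := by
          by_contra h; exact hx h
        rw [measure_mono_null inter_subset_right h3, mul_zero]
    rw [← h2, ProbabilityTheory.cond, smul_smul, ENNReal.mul_inv_cancel h0 (measure_ne_top ν _),
      one_smul]

/-- If every multiple `N ν` gives mass at least `c` to the closed far set then the atomless part of
`ν` has mass at least `c`. -/
lemma minorant {p : ℕ} (hp : 2 ≤ p) {ν : Measure T} [IsProbabilityMeasure ν]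
    (hν : MeasurePreserving (fun x : T => p • x) ν ν) {c : ℝ≥0∞}
    (h : ∀ N : ℕ, 1 ≤ N → c ≤ ν {x | 1 / (2 * (p : ℝ)) ≤ ‖N • x‖}) :
    c ≤ ν (atoms ν)ᶜ := by
  have hI : Pool.Agent.TH741.FU.InvM p p ν := ⟨inferInstance, hν, hν⟩
  exact Pool.Agent.TH741.FU.minorant hp hI h

/-- **The uniform minorant.** -/
theorem uniform {S : Set ℕ} {p : ℕ} (hp : 2 ≤ p) (hpS : p ∈ S) (hF : Rigid S) {c : ℝ} (hc : 0 < c)
    (h : ∀ μ : Measure T, Inv S μ → c * μ.real {0}ᶜ ≤ μ.real (A p)) {U : Set T}
    (hU : IsOpen U) :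
    ∃ Q : ℕ, ∀ μ : Measure T, Inv S μ →
      (c / 2) * (volume : Measure T).real U * μ.real (Sm Q)ᶜ ≤ μ.real (U \ Sm Q) := by
  by_contra hcon
  push Not at hcon
  have hUpos : 0 < (volume : Measure T).real U := by
    obtain ⟨μ', hμ', hlt⟩ := hcon 0
    by_contra hneg
    have h0 : (volume : Measure T).real U = 0 := le_antisymm (not_lt.1 hneg) measureReal_nonneg
    rw [h0] at hlt
    simp only [mul_zero, zero_mul] at hlt
    exact absurd hlt (not_lt.2 measureReal_nonneg)
  have h1 : ∀ j : ℕ, ∃ μ : Measure T, Inv S μ ∧ μ (Sm j) = 0 ∧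
      μ.real U ≤ (c / 2) * (volume : Measure T).real U := by
    intro j
    obtain ⟨μ, hμ, hlt⟩ := hcon j
    have := hμ.1
    have hm : MeasurableSet (Sm j) := Sm_meas j
    obtain ⟨hpos, h0⟩ := real_pos_ne hlt measureReal_nonneg (by positivity)
    refine ⟨μ[|(Sm j)ᶜ], hμ.cond hm (fun n => Sm_smul j n) h0, ?_, ?_⟩
    · rw [cond_apply hm.compl]
      simp
    · rw [Pool.Agent.TH741.FU.cond_real hm, div_le_iff₀ hpos, inter_comm, ← diff_eq]
      exact hlt.le
  choose μ hμ hμ0 hμU using h1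
  set P : ℕ → ProbabilityMeasure T := fun j => ⟨μ j, (hμ j).1⟩ with hP
  set 𝒰 : Ultrafilter ℕ := Ultrafilter.of atTop with h𝒰
  have h𝒰le : (𝒰 : Filter ℕ) ≤ atTop := Ultrafilter.of_le atTop
  set ν : ProbabilityMeasure T := (𝒰.map P).lim with hνdef
  have hlim : Tendsto P (𝒰 : Filter ℕ) (𝓝 ν) := (𝒰.map P).le_nhds_lim
  have hν : Inv S (ν : Measure T) := ⟨inferInstance,
    fun s hs => pres_of_tendsto hlim fun j => (hμ j).2 s hs⟩
  have hνU : (ν : Measure T).real U ≤ (c / 2) * (volume : Measure T).real U := by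
    have h2 := ProbabilityMeasure.le_liminf_measure_open_of_tendsto hlim hU
    have h3 : (𝒰 : Filter ℕ).liminf (fun j => (P j : Measure T) U) ≤
        ENNReal.ofReal ((c / 2) * (volume : Measure T).real U) := by
      refine (liminf_le_liminf (v := fun _ => ENNReal.ofReal ((c / 2) * (volume : Measure T).real U))
        (Eventually.of_forall fun j => ?_)).trans (liminf_const _).le
      have := (hμ j).1
      show μ j U ≤ _
      rw [← ENNReal.ofReal_toReal (measure_ne_top (μ j) U)]
      exact ENNReal.ofReal_le_ofReal (hμU j)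
    exact ENNReal.toReal_le_of_le_ofReal (by positivity) (h2.trans h3)
  have hfar : ∀ N : ℕ, 1 ≤ N →
      ENNReal.ofReal c ≤ (ν : Measure T) {x | 1 / (2 * (p : ℝ)) ≤ ‖N • x‖} := by
    intro N hN
    have hcl : IsClosed {x : T | 1 / (2 * (p : ℝ)) ≤ ‖N • x‖} :=
      isClosed_le continuous_const (continuous_norm.comp (continuous_const_smul N))
    refine le_trans ?_ (ProbabilityMeasure.limsup_measure_closed_le_of_tendsto hlim hcl)
    refine le_limsup_of_frequently_le ?_
    refine Eventually.frequently (h𝒰le ?_)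
    filter_upwards [eventually_ge_atTop N] with j hj
    have := (hμ j).1
    have hmN : Measurable fun x : T => N • x := (continuous_const_smul N).measurable
    have key := h _ ((hμ j).map N)
    rw [map_measureReal_apply hmN (measurableSet_singleton 0).compl,
      map_measureReal_apply hmN (isOpen_A p).measurableSet] at key
    have h4 : μ j ((fun x : T => N • x) ⁻¹' {0}) = 0 := by
      refine measure_mono_null ?_ (hμ0 j)
      intro x hx
      exact ⟨N, hN, hj, hx⟩
    have h5 : (μ j).real ((fun x : T => N • x) ⁻¹' {0}ᶜ) = 1 := by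
      rw [preimage_compl, measureReal_compl (hmN (measurableSet_singleton 0)), measureReal_def (μ j),
        measureReal_def, h4]
      simp
    rw [h5, mul_one] at key
    have h6 : (μ j).real ((fun x : T => N • x) ⁻¹' A p) ≤
        (μ j).real {x : T | 1 / (2 * (p : ℝ)) ≤ ‖N • x‖} :=
      measureReal_mono fun x (hx : 1 / (2 * (p : ℝ)) < ‖N • x‖) => hx.le
    exact ENNReal.ofReal_le_of_le_toReal (key.trans h6)
  have h7 := minorant hp (hν.2 p hpS) hfar
  have h8 : (ν : Measure T) (atoms (ν : Measure T))ᶜ * (volume : Measure T) U ≤ (ν : Measure T) U := by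
    have h9 := cont_part hF hν
    have h10 : ((ν : Measure T).restrict (atoms (ν : Measure T))ᶜ) U ≤ (ν : Measure T) U :=
      Measure.restrict_apply_le _ _
    rw [h9] at h10
    simpa using h10
  have h11 : ENNReal.ofReal c * (volume : Measure T) U ≤ (ν : Measure T) U :=
    (mul_le_mul_left h7 _).trans h8
  have h12 : c * (volume : Measure T).real U ≤ (ν : Measure T).real U := by
    have h13 := ENNReal.toReal_mono (measure_ne_top (ν : Measure T) U) h11
    rwa [ENNReal.toReal_mul, ENNReal.toReal_ofReal hc.le] at h13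
  nlinarith

end Pool.Agent.H632.FU
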