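import Mathlib
import Pool.Agent.H632.FU.Gen

/-!
Equivalences for the measures invariant under the multiplications by the elements of a set `S`.
-/

set_option autoImplicit false

open MeasureTheory Filter Topology Set ProbabilityTheory
open scoped ENNReal

namespace Pool.Agent.H632.FU

open Pool.Agent.TH741.FU (T A isOpen_A norm_le_half integrable_norm norm_smul_eq mean_le
  mass_smul_ge atom_le preimage_ae pres_cond cond_real_le infconv atoms countable_atoms atoms_smul
  atoms_torsion pres_of_tendsto pres_sub pres_volume vol_singleton conv_pres conv_atomless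
  tendsto_conv vol_A_pos A_nonempty le_of_open convPM vol_prob)
open Pool.Agent.H847R3.XpXq (KU KU_finite KU_inv exists_den torsion_norm norm_smul_le hit
  unif unif_prob unif_real unif_pres)

lemma Inv_volume {S : Set ℕ} (hS : ∀ s ∈ S, 1 ≤ s) : Inv S (volume : Measure T) :=
  ⟨vol_prob, fun s hs => pres_volume (hS s hs)⟩

/-- **Bootstrap.** A common minorant for all atomless invariant measures forces rigidity. -/
theorem bootstrap {S : Set ℕ} (hS : ∀ s ∈ S, 1 ≤ s) {c : ℝ} (hc : 0 < c)
    (h : ∀ μ : Measure T, Inv S μ → (∀ x, μ {x} = 0) →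
      ENNReal.ofReal c • (volume : Measure T) ≤ μ) : Rigid S := by
  have hvolI : Inv S (volume : Measure T) := Inv_volume hS
  have hvol0 : ∀ x : T, (volume : Measure T) {x} = 0 := vol_singleton
  have hc1 : c ≤ 1 := by
    have h1 := h _ hvolI hvol0 univ
    simp only [Measure.smul_apply, measure_univ, smul_eq_mul, mul_one] at h1
    exact ENNReal.ofReal_le_one.1 h1
  have hind : ∀ n : ℕ, ∀ μ : Measure T, Inv S μ → (∀ x, μ {x} = 0) →
      ENNReal.ofReal (1 - (1 - c) ^ n) • (volume : Measure T) ≤ μ := by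
    intro n
    induction n with
    | zero => intro μ _ _; simpa using Measure.zero_le μ
    | succ n ih =>
      intro μ hμ h0
      have := hμ.1
      set e : ℝ := (1 - c) ^ n with he
      have he0 : 0 ≤ e := pow_nonneg (by linarith) n
      have he1 : e ≤ 1 := pow_le_one₀ (by linarith) (by linarith)
      have hle := ih μ hμ h0
      rcases he0.eq_or_lt with he0' | he0'
      · have e1 : (1 - c) ^ (n + 1) = 0 := by rw [pow_succ, ← he, ← he0', zero_mul]
        rw [e1]
        rw [← he0'] at hle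
        exact hle
      set ρ : Measure T := ENNReal.ofReal (1 - e) • (volume : Measure T) with hρ
      have hρf : IsFiniteMeasure ρ := by
        rw [hρ]; exact Measure.smul_finite _ ENNReal.ofReal_ne_top
      have hρu : ρ univ = ENNReal.ofReal (1 - e) := by simp [hρ]
      have hρi : ∀ m : ℕ, 1 ≤ m → MeasurePreserving (fun x : T => m • x) ρ ρ := fun m hm =>
        (pres_volume hm).smul_measure _
      have hu : (μ - ρ) univ = ENNReal.ofReal e := by
        rw [Measure.sub_apply MeasurableSet.univ hle, hρu, measure_univ, ← ENNReal.ofReal_one,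
          ← ENNReal.ofReal_sub _ (by linarith)]
        congr 1; ring
      set μ' : Measure T := (ENNReal.ofReal e)⁻¹ • (μ - ρ) with hμ'
      have he2 : ENNReal.ofReal e ≠ 0 := by
        rw [Ne, ENNReal.ofReal_eq_zero, not_le]; exact he0'
      have hI : Inv S μ' := by
        refine ⟨⟨?_⟩, fun s hs => (pres_sub hle (hμ.2 s hs) (hρi s (hS s hs))).smul_measure _⟩
        rw [hμ', Measure.smul_apply, hu, smul_eq_mul, ENNReal.inv_mul_cancel he2 ENNReal.ofReal_ne_top]
      have hI0 : ∀ x, μ' {x} = 0 := by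
        intro x
        rw [hμ', Measure.smul_apply, Measure.sub_apply (measurableSet_singleton x) hle, h0 x]
        simp
      have hkey := h μ' hI hI0
      have hback : μ = ENNReal.ofReal e • μ' + ρ := by
        rw [hμ', smul_smul, ENNReal.mul_inv_cancel he2 ENNReal.ofReal_ne_top, one_smul,
          Measure.sub_add_cancel_of_le hle]
      have e3 : ENNReal.ofReal (1 - (1 - c) ^ (n + 1)) =
          ENNReal.ofReal e * ENNReal.ofReal c + ENNReal.ofReal (1 - e) := by
        rw [← ENNReal.ofReal_mul he0, ← ENNReal.ofReal_add (by positivity) (by linarith)]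
        congr 1
        rw [pow_succ, ← he]; ring
      rw [hback, e3, add_smul, mul_smul]
      gcongr
  intro μ hμ h0
  have := hμ.1
  have hlim : Tendsto (fun n : ℕ => ENNReal.ofReal (1 - (1 - c) ^ n)) atTop (𝓝 1) := by
    have h1 : Tendsto (fun n : ℕ => (1 - c) ^ n) atTop (𝓝 0) :=
      tendsto_pow_atTop_nhds_zero_of_lt_one (by linarith) (by linarith)
    have h2 := ENNReal.tendsto_ofReal (h1.const_sub 1)
    simpa using h2
  have hle : (volume : Measure T) ≤ μ := by
    refine Measure.le_iff.2 fun s _ => ?_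
    have h3 : Tendsto (fun n : ℕ => ENNReal.ofReal (1 - (1 - c) ^ n) * (volume : Measure T) s) atTop
        (𝓝 (1 * (volume : Measure T) s)) :=
      ENNReal.Tendsto.mul_const hlim (Or.inl one_ne_zero)
    rw [one_mul] at h3
    refine le_of_tendsto' h3 fun n => ?_
    have := hind n μ hμ h0 s
    simpa using this
  exact (Measure.eq_of_le_of_isProbabilityMeasure hle).symm

/-- an atomless measure does not see the points of small order -/
lemma atomless_Sm {μ : Measure T} (h0 : ∀ x, μ {x} = 0) (Q : ℕ) : μ (Sm Q) = 0 := by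
  have : μ (⋃ x ∈ Sm Q, {x}) = 0 := (measure_biUnion_null_iff (Sm_finite Q).countable).2
    fun x _ => h0 x
  simpa using this

lemma atomless_compl {μ : Measure T} [IsProbabilityMeasure μ] (h0 : ∀ x, μ {x} = 0) (Q : ℕ) :
    μ.real (Sm Q)ᶜ = 1 := by
  rw [measureReal_compl (Sm_meas Q), measureReal_def μ (Sm Q), atomless_Sm h0]
  simp

lemma atomless_diff {μ : Measure T} [IsProbabilityMeasure μ] (h0 : ∀ x, μ {x} = 0) (Q : ℕ)
    (U : Set T) : μ.real (U \ Sm Q) = μ.real U := by
  rw [measureReal_def, measureReal_def, measure_diff_null (atomless_Sm h0 Q)]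

lemma atomless_zero {μ : Measure T} [IsProbabilityMeasure μ] (h0 : ∀ x, μ {x} = 0) :
    μ.real {0}ᶜ = 1 := by
  rw [measureReal_compl (measurableSet_singleton 0), measureReal_def μ {0}, h0]
  simp

/-- **Rigidity is equivalent to a uniform minorant.** -/
theorem rigid_iff {S : Set ℕ} (hS : ∀ s ∈ S, 1 ≤ s) {p : ℕ} (hp : 2 ≤ p) (hpS : p ∈ S) :
    Rigid S ↔ ∃ c : ℝ, 0 < c ∧ ∀ U : Set T, IsOpen U → ∃ Q : ℕ, ∀ μ : Measure T, Inv S μ →
      c * (volume : Measure T).real U * μ.real (Sm Q)ᶜ ≤ μ.real (U \ Sm Q) := by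
  constructor
  · intro hF
    obtain ⟨c, hc, h⟩ := transfer hp hpS (vol_A_pos hp)
      (fun μ hμ h0 => by rw [hF μ hμ h0])
    exact ⟨c / 2, by positivity, fun U hU => uniform hp hpS hF hc h hU⟩
  · rintro ⟨c, hc, h⟩
    refine bootstrap hS hc fun μ hμ h0 => ?_
    have := hμ.1
    refine le_of_open hc.le fun U hU => ?_
    obtain ⟨Q, hQ⟩ := h U hU
    have h1 := hQ μ hμ
    rw [atomless_compl h0, atomless_diff h0, mul_one] at h1
    exact h1

/-- the atomless invariant measures -/
def Atomless (S : Set ℕ) : Set (ProbabilityMeasure T) :=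
  {ν | Inv S (ν : Measure T) ∧ ∀ x, (ν : Measure T) {x} = 0}

/-- the Dirac mass at `0` -/
noncomputable def dirac0 : ProbabilityMeasure T := ⟨Measure.dirac (0 : T), inferInstance⟩

lemma Inv_dirac0 (S : Set ℕ) : Inv S (dirac0 : Measure T) := by
  refine ⟨inferInstance, fun n _ => ?_⟩
  have hm : Measurable fun x : T => n • x := (continuous_const_smul n).measurable
  refine ⟨hm, ?_⟩
  show (Measure.dirac (0 : T)).map _ = Measure.dirac 0
  rw [Measure.map_dirac' hm]
  simp

theorem dirac_of_far {S : Set ℕ} {r c : ℝ} (hr : 0 < r) (hc : 0 < c)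
    (h : ∀ μ : Measure T, Inv S μ → (∀ x, μ {x} = 0) → c ≤ μ.real {x | r ≤ ‖x‖}) :
    dirac0 ∉ closure (Atomless S) := by
  intro hcl
  obtain ⟨𝒰, h𝒰, hlim⟩ := mem_closure_iff_ultrafilter.1 hcl
  have hlim' : Tendsto (id : ProbabilityMeasure T → ProbabilityMeasure T) (𝒰 : Filter _)
      (𝓝 dirac0) := tendsto_id'.2 hlim
  have hclosed : IsClosed {x : T | r ≤ ‖x‖} := isClosed_le continuous_const continuous_norm
  have h1 := ProbabilityMeasure.limsup_measure_closed_le_of_tendsto (L := (𝒰 : Filter _))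
    (μs := id) hlim' hclosed
  have h2 : ENNReal.ofReal c ≤
      (𝒰 : Filter _).limsup fun i : ProbabilityMeasure T => (i : Measure T) {x : T | r ≤ ‖x‖} := by
    refine le_limsup_of_frequently_le ?_
    refine Eventually.frequently ?_
    filter_upwards [h𝒰] with μ hμ
    exact ENNReal.ofReal_le_of_le_toReal (h μ hμ.1 hμ.2)
  have h3 := h2.trans h1
  have h4 : (dirac0 : Measure T) {x : T | r ≤ ‖x‖} = 0 := by
    show (Measure.dirac (0 : T)) _ = 0
    rw [Measure.dirac_apply' _ hclosed.measurableSet, indicator_of_notMem]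
    simp only [mem_setOf_eq, norm_zero, not_le]
    exact hr
  have h5 : ENNReal.ofReal c ≤ 0 := by
    rw [← h4]; exact h3
  rw [nonpos_iff_eq_zero, ENNReal.ofReal_eq_zero] at h5
  linarith

theorem far_of_not_dense {S : Set ℕ} (hnd : ∃ ρ : ProbabilityMeasure T, Inv S (ρ : Measure T) ∧
      ρ ∉ closure (Atomless S)) :
    ∃ r c : ℝ, 0 < r ∧ 0 < c ∧ ∀ μ : Measure T, Inv S μ → (∀ x, μ {x} = 0) →
      c ≤ μ.real {x | r ≤ ‖x‖} := by
  by_contra hcon
  push Not at hcon
  obtain ⟨ρ, hρ, hρcl⟩ := hnd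
  apply hρcl
  have h1 : ∀ j : ℕ, ∃ μ : Measure T, Inv S μ ∧ (∀ x, μ {x} = 0) ∧
      μ.real {x | 1 / ((j : ℝ) + 1) ≤ ‖x‖} < 1 / ((j : ℝ) + 1) := fun j =>
    hcon _ _ (by positivity) (by positivity)
  choose ν hν hν0 hνr using h1
  have hprob : ∀ j, IsProbabilityMeasure (ν j) := fun j => (hν j).1
  have hlim : ∀ r : ℝ, 0 < r → Tendsto (fun j => (ν j).real {x : T | r ≤ ‖x‖}) atTop (𝓝 0) := by
    intro r hr
    refine squeeze_zero' (Eventually.of_forall fun j => measureReal_nonneg) ?_
      tendsto_one_div_add_atTop_nhds_zero_nat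
    have h2 := tendsto_one_div_add_atTop_nhds_zero_nat (𝕜 := ℝ)
    filter_upwards [h2.eventually (gt_mem_nhds hr)] with j hj
    refine le_trans (measureReal_mono ?_) (hνr j).le
    intro x (hx : r ≤ ‖x‖)
    exact hj.le.trans hx
  refine mem_closure_of_tendsto (tendsto_conv ρ ν hlim) (Eventually.of_forall fun j => ?_)
  refine ⟨⟨inferInstance, fun s hs => conv_pres (hρ.2 s hs) ((hν j).2 s hs)⟩,
    conv_atomless (hν0 j)⟩

/-- the gap -/
def Gap (S : Set ℕ) (p : ℕ) : Prop :=
  ∃ c : ℝ, 0 < c ∧ ∀ μ : Measure T, Inv S μ → c * μ.real {0}ᶜ ≤ μ.real (A p)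

theorem gap_of_not_dense {S : Set ℕ} {p : ℕ} (hp : 2 ≤ p) (hpS : p ∈ S)
    (hnd : ∃ ρ : ProbabilityMeasure T, Inv S (ρ : Measure T) ∧ ρ ∉ closure (Atomless S)) :
    Gap S p := by
  obtain ⟨r, c, hr, hc, h⟩ := far_of_not_dense hnd
  exact transfer hp hpS (mul_pos hr hc) (far_of_far hp hpS hr h)

theorem dirac_of_gap {S : Set ℕ} {p : ℕ} (hp : 2 ≤ p) (h : Gap S p) :
    dirac0 ∉ closure (Atomless S) := by
  obtain ⟨c, hc, h⟩ := h
  have hp0 : (0 : ℝ) < p := by exact_mod_cast (by omega : 0 < p)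
  refine dirac_of_far (r := 1 / (2 * (p : ℝ))) (by positivity) hc fun μ hμ h0 => ?_
  have := hμ.1
  have h1 := h μ hμ
  rw [atomless_zero h0, mul_one] at h1
  exact h1.trans (measureReal_mono fun x (hx : 1 / (2 * (p : ℝ)) < ‖x‖) => hx.le)

/-- from the gap to all open sets -/
theorem open_of_gap {S : Set ℕ} {p q : ℕ} (hp : 2 ≤ p) (hq : 2 ≤ q) (hpS : p ∈ S) (hqS : q ∈ S)
    (hirr : Irrational (Real.log (p : ℝ) / Real.log (q : ℝ))) (h : Gap S p) {U : Set T}
    (hU : IsOpen U) (hne : U.Nonempty) :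
    ∃ c : ℝ, 0 < c ∧ ∃ Q : ℕ, ∀ μ : Measure T, Inv S μ →
      c * μ.real (Sm Q)ᶜ ≤ μ.real (U \ Sm Q) := by
  obtain ⟨c, hc, h⟩ := h
  obtain ⟨d, hd, hdK⟩ := exists_den hp (KU_finite hp hq hirr hU hne) (KU_inv p q U)
  have hd0 : (0 : ℝ) < d := by exact_mod_cast hd
  have hp0 : (0 : ℝ) < p := by exact_mod_cast (by omega : 0 < p)
  set c0 : ℝ := 1 / (2 * p * d) with hc0
  have hc0' : 0 < c0 := by positivity
  obtain ⟨n, hn⟩ := hit (p := p) (q := q) hU hc0'
  -- first for measures which do not charge the points of order at most `d`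
  have main : ∀ μ : Measure T, Inv S μ → μ (Sm d) = 0 → c / (n + 1) ≤ μ.real U := by
    intro μ hμ hμd
    have := hμ.1
    set E : Set T := {x : T | ∀ k ∈ KU p q U, c0 ≤ dist x k} with hE
    have hEn : μ.real E ≤ n * μ.real U := hn μ hμ.1 (hμ.2 p hpS) (hμ.2 q hqS)
    have hmd : Measurable fun x : T => d • x := (continuous_const_smul d).measurable
    have key := h _ (hμ.map d)
    rw [map_measureReal_apply hmd (measurableSet_singleton 0).compl,
      map_measureReal_apply hmd (isOpen_A p).measurableSet] at key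
    have hsub1 : (fun x : T => d • x) ⁻¹' A p ⊆ E := by
      intro x hx k hk
      by_contra hcon
      push Not at hcon
      have h4 : d • x = d • (x - k) := by rw [nsmul_sub, hdK k hk, sub_zero]
      have h5 : 1 / (2 * (p : ℝ)) < ‖d • x‖ := hx
      rw [h4] at h5
      have h6 := norm_smul_le d (x - k)
      rw [← dist_eq_norm] at h6
      have h7 : (d : ℝ) * dist x k < d * c0 := by gcongr
      have h8 : (d : ℝ) * c0 = 1 / (2 * p) := by rw [hc0]; field_simp
      linarith
    have hz : μ ((fun x : T => d • x) ⁻¹' {0}) = 0 := by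
      refine measure_mono_null ?_ hμd
      intro x hx
      exact ⟨d, hd, le_rfl, hx⟩
    have hz1 : μ.real ((fun x : T => d • x) ⁻¹' {0}ᶜ) = 1 := by
      rw [preimage_compl, measureReal_compl (hmd (measurableSet_singleton 0)), measureReal_def μ
        (_ ⁻¹' {0}), hz]
      simp
    rw [hz1, mul_one] at key
    have h13 : μ.real ((fun x : T => d • x) ⁻¹' A p) ≤ μ.real E := measureReal_mono hsub1
    have h14 : 0 ≤ μ.real U := measureReal_nonneg
    rw [div_le_iff₀ (by positivity)]
    nlinarith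
  refine ⟨c / (n + 1), by positivity, d, fun μ hμ => ?_⟩
  have := hμ.1
  by_cases h0 : μ (Sm d)ᶜ = 0
  · have : μ.real (Sm d)ᶜ = 0 := by rw [measureReal_def, h0]; simp
    rw [this, mul_zero]
    exact measureReal_nonneg
  · have hm := Sm_meas d
    have h1 := main _ (hμ.cond hm (fun n => Sm_smul d n) h0) (by
      rw [cond_apply hm.compl]; simp)
    have hpos : 0 < μ.real (Sm d)ᶜ := by
      rw [measureReal_def]
      exact ENNReal.toReal_pos h0 (measure_ne_top _ _)
    rw [Pool.Agent.TH741.FU.cond_real hm, le_div_iff₀ hpos, inter_comm, ← sdiff_eq] at h1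
    exact h1

/-- from measures to finite invariant sets -/
theorem finset_of {S : Set ℕ} {c : ℝ} {Q : ℕ} {U : Set T} (hU : MeasurableSet U)
    (h : ∀ μ : Measure T, Inv S μ → c * μ.real (Sm Q)ᶜ ≤ μ.real (U \ Sm Q))
    (O : Finset T) (hO : ∀ s ∈ S, O.image (fun x : T => s • x) = O) :
    c * ((O : Set T) \ Sm Q).ncard ≤ (((O : Set T) ∩ U) \ Sm Q).ncard := by
  classical
  rcases O.eq_empty_or_nonempty with rfl | hne
  · simp
  have hμ := unif_prob hne
  have hI : Inv S (unif O) := by
    refine ⟨hμ, fun s hs => unif_pres ?_ ?_⟩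
    · intro y hy
      rw [← hO s hs]
      exact Finset.mem_image_of_mem _ hy
    · have h1 : Set.InjOn (fun x : T => s • x) (O : Set T) := by
        apply Finset.injOn_of_card_image_eq
        rw [hO s hs]
      exact fun y hy z hz hyz => h1 hy hz hyz
  have h1 := h _ hI
  have hm := Sm_meas Q
  rw [unif_real O hm.compl, unif_real O (hU.diff hm)] at h1
  have hpos : (0 : ℝ) < O.card := by exact_mod_cast Finset.card_pos.2 hne
  have e1 : ((O : Set T) \ Sm Q) = ((O.filter (· ∈ (Sm Q)ᶜ) : Finset T) : Set T) := by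
    ext y
    simp
  have e2 : (((O : Set T) ∩ U) \ Sm Q) = ((O.filter (· ∈ U \ Sm Q) : Finset T) : Set T) := by
    ext y
    simp [and_assoc]
  rw [e1, e2, Set.ncard_coe_finset, Set.ncard_coe_finset]
  rw [← mul_div_assoc, div_le_div_iff_of_pos_right hpos] at h1
  exact h1

end Pool.Agent.H632.FU
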